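import Pool.Agent.W184.NV.Defs

set_option autoImplicit false

namespace Pool.Agent.W775.NV

open MeasureTheory Filter Topology ProbabilityTheory Pool.Agent.W184.NV

/-- the centred variable -/
noncomputable def fv (η t : ℝ) (p : ℕ) (θ : Ci) : ℝ :=
  LL η p (ze θ * (p : ℂ) ^ (-((t : ℂ) * Complex.I))) -
    2 * Real.sinc (η * Real.log p) / ((p : ℝ) + 1)

lemma fv_continuous (hc : S_Circ) (η t : ℝ) (p : ℕ) : Continuous (fv η t p) := by
  have h1 : Continuous ze := hc.2.1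
  unfold fv LL
  have h2 : Continuous fun θ : Ci => ze θ * (p : ℂ) ^ (-((t : ℂ) * Complex.I)) :=
    h1.mul continuous_const
  exact (((continuous_const.mul (Complex.continuous_re.comp h2)).sub
    (continuous_const.mul (Complex.continuous_re.comp (h2.pow 2))))).sub continuous_const

theorem block : S_Circ → S_Anti → S_Tilt → S_Mom → S_Block := by
  intro hc ha ht hm P hP η t hη hlog hsum
  have hpr : ∀ p : P, IsProbabilityMeasure (nu p t) := fun p => ht.1 p t (hP p p.2).1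
  have hcont : ∀ p : ℕ, Continuous (fv η t p) := fv_continuous hc η t
  have hQ : IsProbabilityMeasure (QQ P t) := by unfold QQ; infer_instance
  set X : P → (P → Ci) → ℝ := fun p ω => fv η t p (ω p) with hX
  have hmom : ∀ p : P, _ := fun p => hm p t η (hP p p.2).1 (hP p p.2).2 hη (hlog p p.2)
  have hind : iIndepFun X (QQ P t) := by
    have := iIndepFun_pi (μ := fun p : P => nu p t) (X := fun p : P => fv η t p)
      (fun p => (hcont p).measurable.aemeasurable)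
    exact this
  have hmeas : ∀ p, Measurable (X p) := fun p =>
    (hcont p).measurable.comp (measurable_pi_apply p)
  have hbd : ∀ p, ∃ B : ℝ, ∀ ω, |X p ω| ≤ B := fun p =>
    ⟨5 / √(p : ℝ), fun ω => (hmom p).2.2 (ω p)⟩
  have hint : ∀ (p : P) (k : ℕ), ∫ ω, X p ω ^ k ∂(QQ P t) = ∫ θ, fv η t p θ ^ k ∂(nu p t) := by
    intro p k
    have := integral_comp_eval (μ := fun p : P => nu p t) (i := p)
      (f := fun θ => fv η t p θ ^ k) ((hcont p).pow k).measurable.aestronglyMeasurable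
    exact this
  have hbint : ∀ (p : P) (k : ℕ), Integrable (fun θ => fv η t p θ ^ k) (nu p t) := by
    intro p k
    refine Integrable.of_bound ((hcont p).pow k).measurable.aestronglyMeasurable
      ((5 / √(p : ℝ)) ^ k) (Eventually.of_forall fun θ => ?_)
    rw [Real.norm_eq_abs, abs_pow]
    exact pow_le_pow_left₀ (abs_nonneg _) ((hmom p).2.2 θ) k
  have hmean : ∀ p, ∫ ω, X p ω ∂(QQ P t) = 0 := by
    intro p
    have h1 := hint p 1
    simp only [pow_one] at h1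
    rw [h1]
    have h2 : Integrable (fun θ => LL η p (ze θ * ((p : ℕ) : ℂ) ^ (-((t : ℂ) * Complex.I))))
        (nu p t) := by
      have h3 := (hbint p 1).add (integrable_const (μ := nu p t)
        (2 * Real.sinc (η * Real.log p) / (((p : ℕ) : ℝ) + 1)))
      refine h3.congr (Eventually.of_forall fun θ => ?_)
      simp [fv]
    have h4 : ∫ θ, fv η t p θ ∂(nu p t) =
        ∫ θ, LL η p (ze θ * ((p : ℕ) : ℂ) ^ (-((t : ℂ) * Complex.I))) ∂(nu p t) -
        ∫ _θ : Ci, 2 * Real.sinc (η * Real.log p) / (((p : ℕ) : ℝ) + 1) ∂(nu p t) :=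
      integral_sub h2 (integrable_const _)
    rw [h4, (hmom p).1]
    simp
  have hvar : ∀ p : P, 1 / (2 * (p : ℝ)) ≤ ∫ ω, X p ω ^ 2 ∂(QQ P t) := by
    intro p
    rw [hint p 2]
    exact (hmom p).2.1
  have hfour : ∀ p : P, ∫ ω, X p ω ^ 4 ∂(QQ P t) ≤ 625 * ((p : ℝ) ^ 2)⁻¹ := by
    intro p
    rw [hint p 4]
    have hp0 : (0 : ℝ) < p := by
      have := (hP p p.2).2
      exact_mod_cast (by omega : 0 < (p : ℕ))
    have h1 : ∀ θ, fv η t p θ ^ 4 ≤ 625 * ((p : ℝ) ^ 2)⁻¹ := by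
      intro θ
      have h2 : |fv η t p θ| ≤ 5 / √(p : ℝ) := (hmom p).2.2 θ
      have h3 : |fv η t p θ| ^ 4 ≤ (5 / √(p : ℝ)) ^ 4 := pow_le_pow_left₀ (abs_nonneg _) h2 4
      have h4 : |fv η t p θ| ^ 4 = fv η t p θ ^ 4 := by
        rw [← abs_pow]; exact abs_of_nonneg (by positivity)
      have h5 : (5 / √(p : ℝ)) ^ 4 = 625 * ((p : ℝ) ^ 2)⁻¹ := by
        rw [div_pow, show √(p : ℝ) ^ 4 = (√(p : ℝ) ^ 2) ^ 2 by ring, Real.sq_sqrt hp0.le]
        norm_num [div_eq_mul_inv]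
      rw [← h4, ← h5]; exact h3
    calc ∫ θ, fv η t p θ ^ 4 ∂(nu p t) ≤ ∫ _θ : Ci, 625 * ((p : ℝ) ^ 2)⁻¹ ∂(nu p t) :=
          integral_mono (hbint p 4) (integrable_const _) h1
      _ = 625 * ((p : ℝ) ^ 2)⁻¹ := by simp
  set V : ℝ := ∑ p ∈ (Finset.univ : Finset P), ∫ ω, X p ω ^ 2 ∂(QQ P t) with hV
  have hVge : 1 / 2 * ∑ p ∈ P, 1 / (p : ℝ) ≤ V := by
    have h1 : ∑ p ∈ P, 1 / (p : ℝ) = ∑ p : P, 1 / ((p : ℕ) : ℝ) :=
      (Finset.sum_coe_sort P (fun p => 1 / (p : ℝ))).symm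
    rw [h1, Finset.mul_sum]
    refine Finset.sum_le_sum fun p _ => ?_
    refine le_trans (le_of_eq ?_) (hvar p)
    rw [one_div_mul_one_div_rev, mul_comm]
  have hV50 : 50 ≤ V := by linarith
  have hsq : ∑ p ∈ P, ((p : ℝ) ^ 2)⁻¹ ≤ 1 := by
    have hsub : P ⊆ Finset.Ioc 11 (P.sup id + 11) := by
      intro p hp
      have h1 := (hP p hp).2
      have h2 : p ≤ P.sup id := Finset.le_sup (f := id) hp
      simp only [Finset.mem_Ioc]
      omega
    calc ∑ p ∈ P, ((p : ℝ) ^ 2)⁻¹ ≤ ∑ p ∈ Finset.Ioc 11 (P.sup id + 11), ((p : ℝ) ^ 2)⁻¹ :=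
          Finset.sum_le_sum_of_subset_of_nonneg hsub fun i _ _ => by positivity
      _ ≤ ((11 : ℕ) : ℝ)⁻¹ - ((P.sup id + 11 : ℕ) : ℝ)⁻¹ :=
          sum_Ioc_inv_sq_le_sub (by norm_num) (by omega)
      _ ≤ 1 := by
          have : (0 : ℝ) ≤ ((P.sup id + 11 : ℕ) : ℝ)⁻¹ := by positivity
          have h11 : ((11 : ℕ) : ℝ)⁻¹ ≤ 1 := by norm_num
          linarith
  have h4V : ∑ p ∈ (Finset.univ : Finset P), ∫ ω, X p ω ^ 4 ∂(QQ P t) ≤ 1 / 4 * V ^ 2 := by
    have h1 : ∑ p ∈ (Finset.univ : Finset P), ∫ ω, X p ω ^ 4 ∂(QQ P t) ≤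
        ∑ p : P, 625 * (((p : ℕ) : ℝ) ^ 2)⁻¹ := Finset.sum_le_sum fun p _ => hfour p
    have h2 : ∑ p : P, 625 * (((p : ℕ) : ℝ) ^ 2)⁻¹ = 625 * ∑ p ∈ P, ((p : ℝ) ^ 2)⁻¹ := by
      rw [← Finset.mul_sum]
      congr 1
      exact Finset.sum_coe_sort P (fun p => ((p : ℝ) ^ 2)⁻¹)
    nlinarith
  have key := ha (P → Ci) inferInstance (QQ P t) hQ P X hind hmeas hbd hmean Finset.univ
    (by linarith) h4V
  refine key.trans (measureReal_mono ?_ (measure_ne_top _ _))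
  intro ω hω
  simp only [Set.mem_ofPred_eq] at hω ⊢
  have hs1 : ∑ p ∈ (Finset.univ : Finset P), X p ω =
      ∑ p : P, LL η p (zt P ω t p) - ∑ p ∈ P, 2 * Real.sinc (η * Real.log p) / ((p : ℝ) + 1) := by
    rw [← Finset.sum_coe_sort P (fun p => 2 * Real.sinc (η * Real.log p) / ((p : ℝ) + 1)),
      ← Finset.sum_sub_distrib]
    rfl
  have hs0 : 0 ≤ ∑ p ∈ P, 1 / (p : ℝ) := by linarith
  have hroot : 1 / 16 * √(∑ p ∈ P, 1 / (p : ℝ)) ≤ 1 / 8 * √V := by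
    have h1 : √(∑ p ∈ P, 1 / (p : ℝ)) / 2 ≤ √V := by
      rw [show √(∑ p ∈ P, 1 / (p : ℝ)) / 2 = √((∑ p ∈ P, 1 / (p : ℝ)) / 4) by
        rw [Real.sqrt_div' _ (by norm_num)]
        congr 1
        rw [show (4 : ℝ) = 2 ^ 2 by norm_num]
        exact (Real.sqrt_sq (by norm_num)).symm]
      exact Real.sqrt_le_sqrt (by linarith)
    linarith
  rw [hs1] at hω
  linarith

end Pool.Agent.W775.NV
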